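import Pool.Agent.Helper32.TOP.Top
import Pool.Agent.Helper32.PLK.Plk

/-! CASE B: the theorem at the level of the corner `T`, closed. -/

set_option autoImplicit false

namespace Pool.Agent.Helper32.TOP

open Pool.Agent.Helper31.NSB

/-- `ST_TOP (ST 1 2)` -/
theorem top : ST_TOP (Pool.Agent.Helper59.EV.ST 1 2) := top_plk _ Pool.Agent.Helper32.PLK.plk1

end Pool.Agent.Helper32.TOP
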