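import Pool.Agent.Helper32.TOP.Top
import Pool.Agent.Helper72.PLK.Main
import Pool.Agent.Helper98.LV.Fin
import Pool.Agent.Helper68.ST2.Top
import Pool.Agent.Helper31.NSB.Cb

/-! CASE B: closed form. `no_win : NOWIN` and `st_cb : ST_CB`. -/

set_option autoImplicit false

namespace Pool.Agent.Helper32.TOP

open Pool.Agent.Helper31.NSB

/-- `ST_TOP1` from row B_NB -/
theorem top1_nb {st : Prop} (nb : ST_NB st) : Pool.Agent.Helper98.LV.ST_TOP1 st :=
  Pool.Agent.Helper98.LV.st_top1 Pool.Agent.Helper30.UNS.st_iso Pool.Agent.Helper30.UNS.st_swap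
    Pool.Agent.Helper32.UNSW.st_unswap nb
    Pool.Agent.Helper90.ZM2.st_zoom Pool.Agent.Helper82.HS.st_heis Pool.Agent.Helper97.SL.st_nsh
    Pool.Agent.Helper69.BF.st_flat1
    (Pool.Agent.Helper32.BF2.st_flat2 Pool.Agent.Helper30.UNS.st_swap Pool.Agent.Helper69.BF.st_flat1)

/-- `ST_TOP1 (ST 1 2)` -/
theorem top1 : Pool.Agent.Helper98.LV.ST_TOP1 (Pool.Agent.Helper59.EV.ST 1 2) :=
  top1_nb (Pool.Agent.Helper54.NB.nb_row _ Pool.Agent.Helper72.PLK.plk1)

/-- the corner theorem of level 1 -/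
theorem no_win : NOWIN := Pool.Agent.Helper98.LV.nowin Pool.Agent.Helper68.ST2.st12 top1

/-- CASE B of the theorem at `n = 4` -/
theorem st_cb : Pool.Agent.Helper40.NSK.ST_CB := st_cb_nw Pool.Agent.Helper68.ST2.st12 no_win

end Pool.Agent.Helper32.TOP
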