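import Pool.Agent.Helper31.NSB.Top
import Pool.Agent.Helper30.UNS.Iso
import Pool.Agent.Helper30.UNS.Swa
import Pool.Agent.Helper69.BF.Flat1
import Pool.Agent.Helper90.ZM2.Zoom
import Pool.Agent.Helper82.HS.Main
import Pool.Agent.Helper97.SL.Nshl
import Pool.Agent.Helper54.NB.Top
import Pool.Agent.Helper32.BF2.Flat2
import Pool.Agent.Helper32.UNSW.Main

/-! CASE B: the theorem at the level of the corner `T`, closed up to `PLK1`. -/

set_option autoImplicit false

namespace Pool.Agent.Helper32.TOP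

open Pool.Agent.Helper31.NSB

/-- `ST_TOP` from row B_NB -/
theorem top_nb {st : Prop} (nb : ST_NB st) : ST_TOP st :=
  st_top Pool.Agent.Helper30.UNS.st_iso Pool.Agent.Helper30.UNS.st_swap Pool.Agent.Helper32.UNSW.st_unswap nb
    Pool.Agent.Helper90.ZM2.st_zoom Pool.Agent.Helper82.HS.st_heis Pool.Agent.Helper97.SL.st_nsh
    Pool.Agent.Helper69.BF.st_flat1
    (Pool.Agent.Helper32.BF2.st_flat2 Pool.Agent.Helper30.UNS.st_swap Pool.Agent.Helper69.BF.st_flat1)

/-- `ST_TOP` from the planks -/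
theorem top_plk (st : Prop) (h1 : st → Pool.Agent.Helper54.NB.PLK1) : ST_TOP st :=
  top_nb (Pool.Agent.Helper54.NB.nb_row st h1)

end Pool.Agent.Helper32.TOP
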